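import Pool.Agent.Helper50.EX.Stm

/-!
# EX GL2: the finite `p`-subgroups of `GL₂` act exponentially
-/

set_option autoImplicit false

namespace Pool.Agent.Helper67.EX

open Matrix Finset Polynomial Pool.Agent.Helper50.EX

section fixed

variable {p : ℕ} [Fact p.Prime] {k : Type} [Field k] [CharP k p]

/-- A finite `p`-group acting linearly on the plane in characteristic `p` has a nonzero fixed
vector. -/
theorem exists_fixed (I : Type) [Group I] [Finite I] (hI : IsPGroup p I)
    (π : I →* GL (Fin 2) k) :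
    ∃ v : Fin 2 → k, v ≠ 0 ∧ ∀ g, (π g).val *ᵥ v = v := by
  classical
  let _ : Algebra (ZMod p) k := ZMod.algebra k p
  let e : Fin 2 → k := fun _ => 1
  have he : e ≠ 0 := fun h => one_ne_zero (congrFun h 0)
  let S : Set (Fin 2 → k) := Set.range fun g : I => (π g).val *ᵥ e
  have hS : S.Finite := Set.finite_range _
  let M := Submodule.span (ZMod p) S
  have : Module.Finite (ZMod p) M := Module.Finite.span_of_finite _ hS
  have : Finite M := Module.finite_of_finite (ZMod p)
  have hact : ∀ (g : I) (m : Fin 2 → k), m ∈ M → (π g).val *ᵥ m ∈ M := by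
    intro g m hm
    induction hm using Submodule.span_induction with
    | mem x hx =>
      obtain ⟨h, rfl⟩ := hx
      refine Submodule.subset_span ⟨g * h, ?_⟩
      simp only [map_mul, Units.val_mul, Matrix.mulVec_mulVec]
    | zero => rw [Matrix.mulVec_zero]; exact M.zero_mem
    | add x y _ _ hx hy => rw [Matrix.mulVec_add]; exact M.add_mem hx hy
    | smul c x _ hx =>
      rw [Matrix.mulVec_smul]
      exact M.smul_mem c hx
  let _ : MulAction I M :=
    { smul := fun g m => ⟨(π g).val *ᵥ m.1, hact g m.1 m.2⟩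
      one_smul := fun m => Subtype.ext (by
        change (π 1).val *ᵥ m.1 = m.1
        rw [map_one, Units.val_one, Matrix.one_mulVec])
      mul_smul := fun g h m => Subtype.ext (by
        change (π (g * h)).val *ᵥ m.1 = (π g).val *ᵥ ((π h).val *ᵥ m.1)
        rw [map_mul, Units.val_mul, Matrix.mulVec_mulVec]) }
  have hsm : ∀ (g : I) (m : M), (g • m).1 = (π g).val *ᵥ m.1 := fun _ _ => rfl
  have heM : e ∈ M := Submodule.subset_span ⟨1, by
    simp only [map_one, Units.val_one, Matrix.one_mulVec]⟩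
  have hdvd : p ∣ Nat.card M := by
    rw [Module.natCard_eq_pow_finrank (K := ZMod p), Nat.card_zmod]
    refine dvd_pow_self _ ?_
    have : Nontrivial M := ⟨⟨⟨e, heM⟩, 0, fun h => he (congrArg Subtype.val h)⟩⟩
    exact (Module.finrank_pos (R := ZMod p) (M := M)).ne'
  have h0 : (0 : M) ∈ MulAction.fixedPoints I M := fun g => Subtype.ext (by
    rw [hsm]
    exact Matrix.mulVec_zero _)
  obtain ⟨b, hb, hb0⟩ := hI.exists_fixed_point_of_prime_dvd_card_of_fixed_point M hdvd h0
  refine ⟨b.1, fun h => hb0 (Subtype.ext h.symm), fun g => ?_⟩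
  rw [← hsm, hb g]

/-- The determinant of an element of `p`-power order is one. -/
theorem det_one (I : Type) [Group I] (hI : IsPGroup p I) (π : I →* GL (Fin 2) k) (g : I) :
    (π g).val.det = 1 := by
  obtain ⟨n, hn⟩ := hI g
  have h1 : ((π g).val.det) ^ p ^ n = 1 := by
    rw [← Matrix.det_pow, ← Units.val_pow_eq_pow_val, ← map_pow, hn, map_one, Units.val_one,
      Matrix.det_one]
  have h2 : ((π g).val.det - 1) ^ p ^ n = 0 := by
    rw [sub_pow_char_pow, h1, one_pow, sub_self]
  exact sub_eq_zero.mp (pow_eq_zero_iff (pow_ne_zero _ (Fact.out (p := p.Prime)).ne_zero) |>.mp h2)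

end fixed

section mat

variable {k : Type} [Field k]

/-- The matrix of rank one attached to a vector. -/
def NN (v : Fin 2 → k) : Matrix (Fin 2) (Fin 2) k :=
  !![-(v 0 * v 1), v 0 * v 0; -(v 1 * v 1), v 0 * v 1]

theorem NN_sq (v : Fin 2 → k) : NN v * NN v = 0 := by
  rw [NN, Matrix.mul_fin_two]
  ext i j
  fin_cases i <;> fin_cases j <;> simp <;> ring

theorem form (A : Matrix (Fin 2) (Fin 2) k) (v : Fin 2 → k) (hv : v ≠ 0) (hA : A *ᵥ v = v)
    (hd : A.det = 1) : ∃ a : k, A = 1 + a • NN v := by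
  have e0 : A 0 0 * v 0 + A 0 1 * v 1 = v 0 := by
    have := congrFun hA 0
    rwa [Matrix.mulVec, dotProduct, Fin.sum_univ_two] at this
  have e1 : A 1 0 * v 0 + A 1 1 * v 1 = v 1 := by
    have := congrFun hA 1
    rwa [Matrix.mulVec, dotProduct, Fin.sum_univ_two] at this
  rw [Matrix.det_fin_two] at hd
  by_cases h0 : v 0 = 0
  · have h1 : v 1 ≠ 0 := fun h1 => hv (by ext i; fin_cases i <;> simp [h0, h1])
    have hb : A 0 1 = 0 := by
      have : A 0 1 * v 1 = 0 := by rw [h0] at e0; linear_combination e0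
      exact (mul_eq_zero.mp this).resolve_right h1
    have hdd : A 1 1 = 1 := by
      have : (A 1 1 - 1) * v 1 = 0 := by rw [h0] at e1; linear_combination e1
      exact sub_eq_zero.mp ((mul_eq_zero.mp this).resolve_right h1)
    have ha : A 0 0 = 1 := by rw [hb, hdd] at hd; linear_combination hd
    refine ⟨-(A 1 0) / (v 1 * v 1), ?_⟩
    ext i j
    fin_cases i <;> fin_cases j <;> simp [NN, h0, hb, hdd, ha]
    field_simp
  · refine ⟨A 0 1 / (v 0 * v 0), ?_⟩
    have hdd : v 0 * A 1 1 = v 0 + A 0 1 * v 1 := by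
      linear_combination v 0 * hd - A 1 1 * e0 + A 0 1 * e1
    have hc : v 0 * v 0 * A 1 0 = - (A 0 1 * v 1 * v 1) := by
      linear_combination v 0 * e1 - v 1 * hdd
    ext i j
    fin_cases i <;> fin_cases j <;> simp [NN]
    · field_simp
      linear_combination e0
    · field_simp
    · field_simp
      linear_combination hc
    · field_simp
      linear_combination hdd

/-- The one-parameter group. -/
noncomputable def uu (v : Fin 2 → k) (x : k) : GL (Fin 2) k where
  val := 1 + x • NN v
  inv := 1 - x • NN v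
  val_inv := by
    rw [mul_sub, add_mul, add_mul, one_mul, one_mul, mul_one, smul_mul_smul_comm, NN_sq, smul_zero]
    abel
  inv_val := by
    rw [sub_mul, mul_add, mul_add, one_mul, one_mul, mul_one, smul_mul_smul_comm, NN_sq, smul_zero]
    abel

theorem uu_add (v : Fin 2 → k) (x y : k) : uu v (x + y) = uu v x * uu v y := by
  apply Units.ext
  change 1 + (x + y) • NN v = (1 + x • NN v) * (1 + y • NN v)
  rw [mul_add, add_mul, add_mul, one_mul, one_mul, mul_one, smul_mul_smul_comm, NN_sq, smul_zero,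
    add_smul]
  abel

theorem uu_zero (v : Fin 2 → k) : uu v 0 = 1 := by
  apply Units.ext
  change 1 + (0 : k) • NN v = 1
  rw [zero_smul, add_zero]

theorem uu_nat (v : Fin 2 → k) (x : k) (j : ℕ) : uu v ((j : k) * x) = uu v x ^ j := by
  induction j with
  | zero => rw [Nat.cast_zero, zero_mul, uu_zero, pow_zero]
  | succ j ih => rw [Nat.cast_succ, add_mul, one_mul, uu_add, ih, pow_succ]

theorem uu_det (v : Fin 2 → k) (x : k) : GeneralLinearGroup.det (uu v x) = 1 := by
  apply Units.ext
  change (1 + x • NN v).det = 1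
  rw [Matrix.det_fin_two]
  simp [NN]
  ring

end mat

section main

variable {p : ℕ} [Fact p.Prime] {k : Type} [Field k] [CharP k p]

theorem fact_ne {m : ℕ} (hm : m < p) : (m.factorial : k) ≠ 0 := by
  intro h
  rw [CharP.cast_eq_zero_iff k p] at h
  exact absurd ((Fact.out (p := p.Prime)).dvd_factorial.mp h) (not_le.mpr hm)

omit [Fact p.Prime] [CharP k p] in
theorem prod_nat (j m : ℕ) :
    (∏ i ∈ range m, ((j : k) - (i : k))) = (j.descFactorial m : k) := by
  induction m with
  | zero => simp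
  | succ m ih =>
    rw [prod_range_succ, ih, Nat.descFactorial_succ, Nat.cast_mul]
    by_cases h : m ≤ j
    · rw [Nat.cast_sub h, mul_comm]
    · have h0 : j.descFactorial m = 0 := Nat.descFactorial_eq_zero_iff_lt.mpr (not_le.mp h)
      rw [h0, Nat.cast_zero, zero_mul, mul_zero]

theorem bn_nat {j m : ℕ} (hm : m < p) : bn (j : k) m = (j.choose m : k) := by
  rw [bn, prod_nat, Nat.descFactorial_eq_factorial_mul_choose, Nat.cast_mul,
    mul_div_cancel_left₀ _ (fact_ne hm)]

/-- The binomial polynomial. -/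
noncomputable def bp (k : Type) [Field k] (m : ℕ) : k[X] :=
  C ((m.factorial : k)⁻¹) * ∏ i ∈ range m, (X - C (i : k))

omit [Fact p.Prime] [CharP k p] in
theorem bp_eval (a : k) (m : ℕ) : (bp k m).eval a = bn a m := by
  rw [bp, bn, eval_mul, eval_C, eval_prod, div_eq_inv_mul]
  simp only [eval_sub, eval_X, eval_C]

omit [Fact p.Prime] [CharP k p] in
theorem bp_deg (m : ℕ) : (bp k m).degree ≤ m := by
  rw [bp]
  refine (degree_mul_le _ _).trans ?_
  have h1 : (∏ i ∈ range m, (X - C (i : k))).degree ≤ (m : WithBot ℕ) := by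
    refine (degree_prod_le _ _).trans ?_
    refine (sum_le_sum (g := fun _ => (1 : WithBot ℕ)) fun i _ => degree_X_sub_C_le _).trans ?_
    simp
  refine (add_le_add degree_C_le h1).trans ?_
  rw [zero_add]

theorem powsum {n : ℕ} (D : Matrix (Fin n) (Fin n) k) {j : ℕ} (hj : j < p) :
    (1 + D) ^ j = ∑ m ∈ range p, bn (j : k) m • D ^ m := by
  rw [add_comm, (Commute.one_right D).add_pow]
  rw [← sum_subset (range_subset_range.mpr (Nat.succ_le_of_lt hj))]
  · refine sum_congr rfl fun m hm => ?_
    have hm' : m < p := lt_of_lt_of_le (mem_range.mp hm) hj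
    rw [one_pow, mul_one, bn_nat hm', ← nsmul_eq_mul', Nat.cast_smul_eq_nsmul]
  · intro m hm hm'
    have : j < m := by
      rw [mem_range, not_lt] at hm'
      exact hm'
    rw [bn_nat (mem_range.mp hm), Nat.choose_eq_zero_of_lt this, Nat.cast_zero, zero_smul]

theorem key {n : ℕ} (R : GL (Fin 2) k →* GL (Fin n) k) (hR : IsPolyRep p R) (v : Fin 2 → k)
    (b a : k) : (R (uu v (a * b))).val = ∑ m ∈ range p, bn a m • ((R (uu v b)).val - 1) ^ m := by
  set D : Matrix (Fin n) (Fin n) k := (R (uu v b)).val - 1 with hD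
  ext i j
  obtain ⟨r, m, hr, hE⟩ := hR i j
  let P : k[X] := MvPolynomial.aeval (fun s : Fin 2 × Fin 2 =>
    C ((1 : Matrix (Fin 2) (Fin 2) k) s.1 s.2) + X * C (b * NN v s.1 s.2)) r
  let Q : k[X] := ∑ m ∈ range p, bp k m * C ((D ^ m) i j)
  have hP : ∀ x, P.eval x = (R (uu v (x * b))).val i j := by
    intro x
    rw [hE, uu_det, _root_.one_zpow, Units.val_one, mul_one]
    have e1 : P.eval x = Polynomial.evalRingHom x (MvPolynomial.eval₂ (algebraMap k k[X])
        (fun s : Fin 2 × Fin 2 => C ((1 : Matrix (Fin 2) (Fin 2) k) s.1 s.2) +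
          X * C (b * NN v s.1 s.2)) r) := rfl
    rw [e1, MvPolynomial.eval₂_comp_left]
    have e2 : (Polynomial.evalRingHom x).comp (algebraMap k k[X]) = RingHom.id k := by
      ext c
      simp
    have e3 : (Polynomial.evalRingHom x) ∘ (fun s : Fin 2 × Fin 2 =>
        C ((1 : Matrix (Fin 2) (Fin 2) k) s.1 s.2) + X * C (b * NN v s.1 s.2)) =
        fun s => (uu v (x * b)).val s.1 s.2 := by
      funext s
      change eval x (C ((1 : Matrix (Fin 2) (Fin 2) k) s.1 s.2) + X * C (b * NN v s.1 s.2)) =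
        (1 + (x * b) • NN v) s.1 s.2
      rw [eval_add, eval_mul, eval_C, eval_C, eval_X, Matrix.add_apply, Matrix.smul_apply,
        smul_eq_mul, mul_assoc]
    rw [e2, e3]
    rfl
  have hQ : ∀ x, Q.eval x = (∑ m ∈ range p, bn x m • D ^ m) i j := by
    intro x
    rw [eval_finsetSum, Matrix.sum_apply]
    refine sum_congr rfl fun m _ => ?_
    rw [eval_mul, eval_C, bp_eval, Matrix.smul_apply, smul_eq_mul]
  have hPd : P.degree < p := by
    have h1 : P.natDegree ≤ (p - 1) * 1 := by
      refine MvPolynomial.aeval_natDegree_le r (Nat.le_sub_one_of_lt hr) _ fun s => ?_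
      refine (natDegree_add_le _ _).trans (max_le ?_ ?_)
      · rw [natDegree_C]; exact Nat.zero_le _
      · refine natDegree_mul_le.trans ?_
        rw [natDegree_X, natDegree_C]
    have hp := (Fact.out (p := p.Prime)).pos
    refine lt_of_le_of_lt degree_le_natDegree ?_
    rw [Nat.cast_lt]
    omega
  have hQd : Q.degree < p := by
    refine lt_of_le_of_lt (degree_sum_le _ _) ?_
    rw [Finset.sup_lt_iff (WithBot.bot_lt_coe _)]
    intro m hm
    refine lt_of_le_of_lt (degree_mul_le _ _) ?_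
    refine lt_of_le_of_lt (add_le_add (bp_deg m) degree_C_le) ?_
    rw [add_zero]
    exact Nat.cast_lt.mpr (mem_range.mp hm)
  have hPQ : P = Q := by
    refine Polynomial.eq_of_degrees_lt_of_eval_index_eq (range p) (v := fun j : ℕ => (j : k))
      ?_ ?_ ?_ ?_
    · intro x hx y hy hxy
      exact CharP.natCast_injOn_Iio k p (by simpa using hx) (by simpa using hy) hxy
    · rwa [card_range]
    · rwa [card_range]
    · intro x hx
      rw [hP, hQ, uu_nat, map_pow, Units.val_pow_eq_pow_val, ← powsum D (mem_range.mp hx), hD,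
        add_sub_cancel]
  rw [← hP, hPQ, hQ]

end main

theorem gl2 : S_GL2 := by
  intro p _ k _ _ n R hR I _ _ hI π
  obtain ⟨v, hv, hfix⟩ := exists_fixed I hI π
  have h1 : ∀ g, ∃ a : k, π g = uu v a := fun g => by
    obtain ⟨a, ha⟩ := form (π g).val v hv (hfix g) (det_one I hI π g)
    exact ⟨a, Units.ext ha⟩
  choose α hα using h1
  obtain ⟨τ, hτ⟩ : ∃ τ, ∀ g, ∃ a, α g = a * α τ := by
    by_cases h : ∃ τ, α τ ≠ 0
    · obtain ⟨τ, hτ⟩ := h
      exact ⟨τ, fun g => ⟨α g / α τ, (div_mul_cancel₀ _ hτ).symm⟩⟩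
    · push Not at h
      exact ⟨1, fun g => ⟨0, by rw [h g, zero_mul]⟩⟩
  refine ⟨τ, fun g => ?_⟩
  obtain ⟨a, ha⟩ := hτ g
  exact ⟨a, by rw [hα g, hα τ, ha]; exact key R hR v (α τ) a⟩

end Pool.Agent.Helper67.EX
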